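import Mathlib
import Pool.Agent.Helper340.MB.Strat

set_option autoImplicit false
set_option linter.unusedVariables false

/-!
The (m:b) clique game with blocks: the vertices are grouped into groups of `g` vertices, `g² ≤ m`,
and Maker claims all edges between two groups in one move. This turns the game into the (1:b) game
on the groups.
-/

namespace Pool.Agent.H199R2.Blocks

open Finset Pool.Agent.Helper340.MB

/-- If the goal is monotone and already reached, Maker just plays on. -/
lemma forces_of_goal {E : Type*} [DecidableEq E] {m b : ℕ} (hm : 1 ≤ m) {Bd : Finset E}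
    {goal : Finset E → Prop} (hmono : ∀ M M', M ⊆ M' → goal M → goal M') :
    ∀ (k : ℕ) (M B : Finset E), (Bd \ (M ∪ B)).card = k → goal M → Forces m b Bd goal M B := by
  intro k
  induction k using Nat.strong_induction_on with
  | _ k ih =>
    intro M B hk hg
    rcases (Bd \ (M ∪ B)).eq_empty_or_nonempty with he | hne
    · exact Forces.done he hg
    · obtain ⟨Q, hQ, hQc⟩ := exists_subset_card_eq (s := Bd \ (M ∪ B))
        (n := min m (Bd \ (M ∪ B)).card) (min_le_right _ _)
      refine Forces.move hne Q hQ hQc ?_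
      intro R hR hRc
      have hkpos : 0 < (Bd \ (M ∪ B)).card := card_pos.mpr hne
      have hQpos : 0 < Q.card := by omega
      refine ih _ ?_ (M ∪ Q) (B ∪ R) rfl (hmono _ _ subset_union_left hg)
      rw [← hk]
      apply card_lt_card
      refine ⟨?_, ?_⟩
      · intro z hz
        simp only [mem_sdiff, mem_union, not_or] at hz ⊢
        exact ⟨hz.1, hz.2.1.1, hz.2.2.1⟩
      · intro hcon
        obtain ⟨z, hz⟩ := card_pos.mp hQpos
        have := hcon (hQ hz)
        simp only [mem_sdiff, mem_union, not_or] at this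
        exact this.2.1.2 hz

lemma hasClique_mono {N q : ℕ} (M M' : Finset (Sym2 (Fin N))) (h : M ⊆ M')
    (hM : HasClique q M) : HasClique q M' := by
  obtain ⟨S, hS, hc⟩ := hM
  exact ⟨S, hS, fun u hu v hv huv => h (hc u hu v hv huv)⟩

section blocks

variable {N n g : ℕ} (G : Fin n → Fin g → Fin N)

open Classical in
/-- all edges between two groups -/
noncomputable def blk (z : Sym2 (Fin n)) : Finset (Sym2 (Fin N)) :=
  univ.filter (fun e => ∃ i j a a', z = s(i, j) ∧ e = s(G i a, G j a'))

lemma mem_blk {z : Sym2 (Fin n)} {e : Sym2 (Fin N)} :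
    e ∈ blk G z ↔ ∃ i j a a', z = s(i, j) ∧ e = s(G i a, G j a') := by
  unfold blk
  rw [mem_filter]
  exact ⟨fun h => h.2, fun h => ⟨mem_univ _, h⟩⟩

lemma card_blk (z : Sym2 (Fin n)) : (blk G z).card ≤ g * g := by
  classical
  induction z using Sym2.ind with
  | _ i j =>
    have h : blk G s(i, j) ⊆ (univ : Finset (Fin g × Fin g)).image
        (fun p => s(G i p.1, G j p.2)) := by
      intro e he
      obtain ⟨i', j', a, a', h1, rfl⟩ := (mem_blk G).mp he
      rw [mem_image]
      rw [Sym2.eq_iff] at h1
      rcases h1 with ⟨rfl, rfl⟩ | ⟨rfl, rfl⟩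
      · exact ⟨(a, a'), mem_univ _, rfl⟩
      · exact ⟨(a', a), mem_univ _, Sym2.eq_swap⟩
    refine (card_le_card h).trans (card_image_le.trans ?_)
    rw [card_univ, Fintype.card_prod, Fintype.card_fin]

variable (hG : ∀ i a j a', G i a = G j a' → i = j ∧ a = a')

include hG in
lemma blk_sub {z : Sym2 (Fin n)} (hz : z ∈ edges n) : blk G z ⊆ edges N := by
  intro e he
  obtain ⟨i, j, a, a', rfl, rfl⟩ := (mem_blk G).mp he
  unfold edges at hz ⊢
  rw [mem_filter, Sym2.mk_isDiag_iff] at hz ⊢
  exact ⟨mem_univ _, fun h => hz.2 (hG _ _ _ _ h).1⟩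

include hG in
lemma blk_eq {z z' : Sym2 (Fin n)} {e : Sym2 (Fin N)} (h : e ∈ blk G z) (h' : e ∈ blk G z') :
    z = z' := by
  obtain ⟨i, j, a, a', rfl, rfl⟩ := (mem_blk G).mp h
  obtain ⟨i', j', c, c', rfl, h2⟩ := (mem_blk G).mp h'
  rw [Sym2.eq_iff] at h2
  rcases h2 with ⟨h3, h4⟩ | ⟨h3, h4⟩
  · rw [(hG _ _ _ _ h3).1, (hG _ _ _ _ h4).1]
  · rw [(hG _ _ _ _ h3).1, (hG _ _ _ _ h4).1]
    exact Sym2.eq_swap

/-- the link between the (1:b) game on the groups and the (m:b) game -/
structure Link (M' B' : Finset (Sym2 (Fin n))) (M B : Finset (Sym2 (Fin N))) : Prop where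
  own : ∀ z ∈ M', blk G z ⊆ M
  inner : ∀ i a a', a ≠ a' → s(G i a, G i a') ∈ M
  safe : ∀ z ∈ edges n, z ∉ M' → z ∉ B' → Disjoint (blk G z) B

include hG in
theorem sim {m b q : ℕ} (hm : g * g ≤ m) (hm1 : 1 ≤ m) {M' B' : Finset (Sym2 (Fin n))}
    (hf : Forces 1 b (edges n) (HasClique q) M' B') :
    ∀ M B : Finset (Sym2 (Fin N)), Link G M' B' M B →
      Forces m b (edges N) (HasClique (q * g)) M B := by
  classical
  induction hf with
  | @done M' B' h0 hg =>
    intro M B L
    apply forces_of_goal hm1 hasClique_mono _ M B rfl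
    obtain ⟨K, hK, hKc⟩ := hg
    refine ⟨(K ×ˢ (univ : Finset (Fin g))).image (fun p => G p.1 p.2), ?_, ?_⟩
    · rw [card_image_of_injective, card_product, card_univ, Fintype.card_fin, hK]
      intro p p' h
      obtain ⟨h1, h2⟩ := hG _ _ _ _ h
      exact Prod.ext h1 h2
    · intro u hu v hv huv
      rw [mem_image] at hu hv
      obtain ⟨⟨i, a⟩, hi, rfl⟩ := hu
      obtain ⟨⟨j, a'⟩, hj, rfl⟩ := hv
      rw [mem_product] at hi hj
      by_cases hij : i = j
      · subst hij
        exact L.inner i a a' (fun h => huv (by rw [h]))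
      · exact L.own _ (hKc i hi.1 j hj.1 hij) ((mem_blk G).mpr ⟨i, j, a, a', rfl, rfl⟩)
  | @move M' B' hne Q' hQ' hc hR' ih =>
    intro M B L
    have hc1 : Q'.card = 1 := by
      rw [hc]
      have := card_pos.mpr hne
      omega
    obtain ⟨z, rfl⟩ := card_eq_one.mp hc1
    have hz : z ∈ edges n \ (M' ∪ B') := hQ' (mem_singleton_self z)
    rw [mem_sdiff, mem_union, not_or] at hz
    have hsafe := L.safe z hz.1 hz.2.1 hz.2.2
    have hsub : blk G z \ M ⊆ edges N \ (M ∪ B) := by
      intro e he
      rw [mem_sdiff] at he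
      rw [mem_sdiff, mem_union, not_or]
      exact ⟨blk_sub G hG hz.1 he.1, he.2, disjoint_left.mp hsafe he.1⟩
    have hcard : (blk G z \ M).card ≤ min m (edges N \ (M ∪ B)).card := by
      refine le_min ?_ (card_le_card hsub)
      exact (card_le_card sdiff_subset).trans ((card_blk G z).trans hm)
    rcases (edges N \ (M ∪ B)).eq_empty_or_nonempty with he | hne'
    · -- the board is exhausted: all blocks which are not lost are owned
      -- the virtual game is still finished: play it on with an idle real board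
      have hM : ∀ z' ∈ edges n, z' ∉ M' → z' ∉ B' → blk G z' ⊆ M := by
        intro z' h1 h2 h3 e h4
        by_contra h5
        have : e ∈ edges N \ (M ∪ B) := by
          rw [mem_sdiff, mem_union, not_or]
          exact ⟨blk_sub G hG h1 h4, h5, disjoint_left.mp (L.safe z' h1 h2 h3) h4⟩
        rw [he] at this
        exact notMem_empty _ this
      obtain ⟨R', hR'1, hR'2⟩ := exists_subset_card_eq
        (s := (edges n \ (M' ∪ B')) \ {z})
        (n := min b ((edges n \ (M' ∪ B')) \ {z}).card) (min_le_right _ _)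
      refine ih R' hR'1 hR'2 M B ⟨?_, L.inner, ?_⟩
      · intro z' hz'
        rw [mem_union, mem_singleton] at hz'
        rcases hz' with h | rfl
        · exact L.own z' h
        · exact hM z' hz.1 hz.2.1 hz.2.2
      · intro z' h1 h2 h3
        rw [mem_union, not_or] at h2 h3
        exact L.safe z' h1 h2.1 h3.1
    · obtain ⟨Q, hQ1, hQ2, hQc⟩ := exists_subsuperset_card_eq hsub hcard (min_le_right _ _)
      refine Forces.move hne' Q hQ2 hQc ?_
      intro R hR hRc
      have hRb : R.card ≤ b := by rw [hRc]; exact min_le_left _ _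
      -- the blocks hit by Breaker
      set Sf := (edges n \ (M' ∪ B')) \ {z} with hSf
      set H := Sf.filter (fun z' => ∃ e ∈ R, e ∈ blk G z') with hH
      have hHc : H.card ≤ min b Sf.card := by
        refine le_min ?_ (card_le_card (filter_subset _ _))
        refine le_trans ?_ hRb
        have hex : ∀ z' ∈ H, ∃ e, e ∈ R ∧ e ∈ blk G z' := fun z' hz' => (mem_filter.mp hz').2
        choose f hf1 hf2 using hex
        rw [← card_attach]
        refine card_le_card_of_injOn (fun z' => f z'.1 z'.2) (fun z' _ => hf1 z'.1 z'.2) ?_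
        intro z1 h1 z2 h2 h12
        have h3 := hf2 z1.1 z1.2
        have h4 := hf2 z2.1 z2.2
        simp only at h12
        rw [← h12] at h4
        exact Subtype.ext (blk_eq G hG h3 h4)
      obtain ⟨R', hR'1, hR'2, hR'c⟩ := exists_subsuperset_card_eq (filter_subset _ Sf) hHc
        (min_le_right _ _)
      refine ih R' hR'2 hR'c _ _ ⟨?_, ?_, ?_⟩
      · intro z' hz'
        rw [mem_union, mem_singleton] at hz'
        rcases hz' with h | rfl
        · exact (L.own z' h).trans subset_union_left
        · intro e he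
          rw [mem_union]
          by_cases h : e ∈ M
          · exact Or.inl h
          · exact Or.inr (hQ1 (mem_sdiff.mpr ⟨he, h⟩))
      · intro i a a' haa
        exact mem_union_left _ (L.inner i a a' haa)
      · intro z' h1 h2 h3
        rw [mem_union, not_or] at h2 h3
        rw [disjoint_union_right]
        refine ⟨L.safe z' h1 h2.1 h3.1, ?_⟩
        rw [disjoint_left]
        intro e he heR
        apply h3.2
        apply hR'1
        rw [mem_filter, hSf, mem_sdiff, mem_sdiff, mem_union, not_or]
        exact ⟨⟨⟨h1, h2.1, h3.1⟩, h2.2⟩, e, heR, he⟩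

end blocks

/-- selection of groups without conflicts -/
lemma select {E : Type*} [DecidableEq E] {K b : ℕ} (B : Finset E) (touch : Fin K → E → Prop)
    (h2 : ∀ e ∈ B, ∀ T : Finset (Fin K), (∀ i ∈ T, touch i e) → T.card ≤ 2)
    (hB : B.card ≤ b * K) :
    ∃ I : Finset (Fin K), K ≤ 2 * (1 + 8 * b) * I.card ∧
      ∀ i ∈ I, ∀ j ∈ I, i ≠ j → ∀ e ∈ B, touch i e → ¬ touch j e := by
  classical
  set t : Fin K → ℕ := fun i => (B.filter (fun e => touch i e)).card with ht
  have hsum : ∑ i, t i ≤ 2 * B.card := by
    have h1 : ∑ i, t i = ∑ e ∈ B, (univ.filter (fun i => touch i e)).card := by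
      simp only [ht, card_filter]
      exact sum_comm
    rw [h1]
    calc ∑ e ∈ B, (univ.filter (fun i => touch i e)).card ≤ ∑ e ∈ B, 2 :=
          sum_le_sum (fun e he => h2 e he _ (fun i hi => (mem_filter.mp hi).2))
      _ = 2 * B.card := by rw [sum_const, smul_eq_mul, mul_comm]
  set S' : Finset (Fin K) := univ.filter (fun i => t i ≤ 4 * b) with hS'
  have hc : (univ \ S').card * (4 * b + 1) ≤ 2 * B.card := by
    calc (univ \ S').card * (4 * b + 1) = ∑ i ∈ univ \ S', (4 * b + 1) := by
          rw [sum_const, smul_eq_mul]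
      _ ≤ ∑ i ∈ univ \ S', t i := by
          apply sum_le_sum
          intro i hi
          rw [mem_sdiff, hS', mem_filter, not_and] at hi
          have := hi.2 (mem_univ _)
          omega
      _ ≤ ∑ i, t i := sum_le_sum_of_subset (subset_univ _)
      _ ≤ 2 * B.card := hsum
  have hS'c : K ≤ 2 * S'.card := by
    have h3 : (univ \ S').card + S'.card = K := by
      rw [card_sdiff_add_card_eq_card (subset_univ _), card_univ, Fintype.card_fin]
    have h4 : (univ \ S').card * (4 * b + 1) ≤ 2 * (b * K) := hc.trans (by omega)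
    by_contra hcon
    have h5 : K + 1 ≤ 2 * (univ \ S').card := by omega
    have h6 : (K + 1) * (4 * b + 1) ≤ 2 * (univ \ S').card * (4 * b + 1) :=
      Nat.mul_le_mul_right _ h5
    nlinarith
  -- a largest independent subset of `S'`
  obtain ⟨I, hI, hmax⟩ := exists_max_image
    (S'.powerset.filter (fun I => ∀ i ∈ I, ∀ j ∈ I, i ≠ j → ∀ e ∈ B, touch i e → ¬ touch j e))
    (fun I => I.card) ⟨∅, by simp⟩
  rw [mem_filter, mem_powerset] at hI
  refine ⟨I, ?_, hI.2⟩
  have hcov : S' ⊆ I ∪ I.biUnion (fun i => (B.filter (fun e => touch i e)).biUnion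
      (fun e => univ.filter (fun j => touch j e))) := by
    intro j hj
    by_contra hcon
    rw [mem_union, not_or] at hcon
    obtain ⟨hjI, hj2⟩ := hcon
    have h5 : ∀ i ∈ I, ∀ e ∈ B, touch i e → ¬ touch j e := by
      intro i hi e he h6 h7
      apply hj2
      rw [mem_biUnion]
      refine ⟨i, hi, ?_⟩
      rw [mem_biUnion]
      exact ⟨e, mem_filter.mpr ⟨he, h6⟩, mem_filter.mpr ⟨mem_univ _, h7⟩⟩
    have h6 := hmax (insert j I) (by
      rw [mem_filter, mem_powerset]
      refine ⟨insert_subset hj hI.1, ?_⟩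
      intro i hi i' hi' hii' e he h8 h9
      rw [mem_insert] at hi hi'
      rcases hi with rfl | hi <;> rcases hi' with rfl | hi'
      · exact hii' rfl
      · exact h5 i' hi' e he h9 h8
      · exact h5 i hi e he h8 h9
      · exact hI.2 i hi i' hi' hii' e he h8 h9)
    rw [card_insert_of_notMem hjI] at h6
    omega
  have h7 : S'.card ≤ I.card + I.card * (4 * b * 2) := by
    refine (card_le_card hcov).trans ((card_union_le _ _).trans ?_)
    refine Nat.add_le_add_left ?_ _
    refine card_biUnion_le_card_mul _ _ _ ?_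
    intro i hi
    have h8 : t i ≤ 4 * b := (mem_filter.mp (hI.1 hi)).2
    refine (card_biUnion_le_card_mul _ _ 2 ?_).trans (Nat.mul_le_mul_right _ h8)
    intro e he
    exact h2 e (mem_filter.mp he).1 _ (fun i hi => (mem_filter.mp hi).2)
  nlinarith

section phase1

variable {N g b : ℕ}

/-- `k` groups are built -/
structure Phase (k : ℕ) (b : ℕ) (G : Fin k → Fin g → Fin N) (M B : Finset (Sym2 (Fin N))) :
    Prop where
  inj : ∀ i a j a', G i a = G j a' → i = j ∧ a = a'
  inner : ∀ i a a', a ≠ a' → s(G i a, G i a') ∈ M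
  cB : B.card ≤ b * k

lemma touch_two {k : ℕ} {G : Fin k → Fin g → Fin N}
    (inj : ∀ i a j a', G i a = G j a' → i = j ∧ a = a') (e : Sym2 (Fin N))
    (T : Finset (Fin k)) (hT : ∀ i ∈ T, ∃ a, G i a ∈ e) : T.card ≤ 2 := by
  classical
  induction e using Sym2.ind with
  | _ x y =>
    by_contra hcon
    push Not at hcon
    obtain ⟨i, j, l, hi, hj, hl, hij, hil, hjl⟩ := two_lt_card_iff.mp hcon
    obtain ⟨a, ha⟩ := hT i hi
    obtain ⟨a', ha'⟩ := hT j hj
    obtain ⟨a'', ha''⟩ := hT l hl
    rw [Sym2.mem_iff] at ha ha' ha''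
    rcases ha with ha | ha <;> rcases ha' with ha' | ha' <;> rcases ha'' with ha'' | ha''
    · exact hij (inj _ _ _ _ (ha.trans ha'.symm)).1
    · exact hij (inj _ _ _ _ (ha.trans ha'.symm)).1
    · exact hil (inj _ _ _ _ (ha.trans ha''.symm)).1
    · exact hjl (inj _ _ _ _ (ha'.trans ha''.symm)).1
    · exact hjl (inj _ _ _ _ (ha'.trans ha''.symm)).1
    · exact hil (inj _ _ _ _ (ha.trans ha''.symm)).1
    · exact hij (inj _ _ _ _ (ha.trans ha'.symm)).1
    · exact hij (inj _ _ _ _ (ha.trans ha'.symm)).1

theorem phase2 {m q K n : ℕ} (hm : g * g ≤ m) (hm1 : 1 ≤ m) (hn : 2 * (1 + 8 * b) * n ≤ K)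
    (hf : Forces 1 b (edges n) (HasClique q) ∅ ∅) (G : Fin K → Fin g → Fin N)
    (M B : Finset (Sym2 (Fin N))) (P : Phase K b G M B) :
    Forces m b (edges N) (HasClique (q * g)) M B := by
  classical
  obtain ⟨I, hI1, hI2⟩ := select B (fun i e => ∃ a, G i a ∈ e)
    (fun e _ T hT => touch_two P.inj e T hT) P.cB
  have hnI : n ≤ I.card := by
    have h1 : 2 * (1 + 8 * b) * n ≤ 2 * (1 + 8 * b) * I.card := hn.trans hI1
    exact Nat.le_of_mul_le_mul_left h1 (by omega)
  obtain ⟨I', hI'1, hI'2⟩ := exists_subset_card_eq hnI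
  set ι := I'.orderEmbOfFin hI'2 with hι
  have hιmem : ∀ i, ι i ∈ I := fun i => hI'1 (orderEmbOfFin_mem _ _ _)
  refine sim (fun i a => G (ι i) a) ?_ hm hm1 hf M B ⟨by simp, ?_, ?_⟩
  · intro i a j a' h
    obtain ⟨h1, h2⟩ := P.inj _ _ _ _ h
    exact ⟨ι.injective h1, h2⟩
  · intro i a a' haa
    exact P.inner _ _ _ haa
  · intro z hz _ _
    rw [disjoint_left]
    intro e he heB
    obtain ⟨i, j, a, a', rfl, rfl⟩ := (mem_blk _).mp he
    unfold edges at hz
    rw [mem_filter, Sym2.mk_isDiag_iff] at hz
    exact hI2 (ι i) (hιmem i) (ι j) (hιmem j) (fun h => hz.2 (ι.injective h)) _ heB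
      ⟨a, by simp⟩ ⟨a', by simp⟩

theorem phase1 {m q K n : ℕ} (hm : g * g ≤ m) (hm1 : 1 ≤ m) (hn : 2 * (1 + 8 * b) * n ≤ K)
    (hf : Forces 1 b (edges n) (HasClique q) ∅ ∅) (hN : (2 * b + g) * K ≤ N) :
    ∀ d k : ℕ, k + d = K → ∀ (G : Fin k → Fin g → Fin N) (M B : Finset (Sym2 (Fin N))),
      Phase k b G M B → Forces m b (edges N) (HasClique (q * g)) M B := by
  classical
  intro d
  induction d with
  | zero =>
    intro k hk G M B P
    have : k = K := by omega
    subst this
    exact phase2 hm hm1 hn hf G M B P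
  | succ d ih =>
    intro k hk G M B P
    -- fresh vertices
    set T : Finset (Fin N) := B.biUnion (fun e => univ.filter (fun v => v ∈ e)) with hT
    set U : Finset (Fin N) := (univ : Finset (Fin k × Fin g)).image (fun p => G p.1 p.2) with hU
    have hTc : T.card ≤ B.card * 2 := by
      refine card_biUnion_le_card_mul _ _ 2 ?_
      intro e _
      induction e using Sym2.ind with
      | _ x y =>
        refine (card_le_card (t := {x, y}) ?_).trans card_le_two
        intro v hv
        rw [mem_filter, Sym2.mem_iff] at hv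
        simpa using hv.2
    have hUc : U.card ≤ k * g := by
      refine card_image_le.trans ?_
      rw [card_univ, Fintype.card_prod, Fintype.card_fin, Fintype.card_fin]
    have hF : g ≤ (univ \ (T ∪ U)).card := by
      have h1 := le_card_sdiff (T ∪ U) (univ : Finset (Fin N))
      have h2 := card_union_le T U
      rw [card_univ, Fintype.card_fin] at h1
      have h3 := P.cB
      have h4 : (2 * b + g) * (k + 1) ≤ N :=
        (Nat.mul_le_mul_left _ (by omega)).trans hN
      have h5 : (2 * b + g) * (k + 1) = b * k * 2 + k * g + 2 * b + g := by ring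
      omega
    obtain ⟨F, hF1, hF2⟩ := exists_subset_card_eq hF
    set h := F.orderEmbOfFin hF2 with hh
    have hmem : ∀ a, h a ∈ univ \ (T ∪ U) := fun a => hF1 (orderEmbOfFin_mem _ _ _)
    have hmT : ∀ a, h a ∉ T := fun a hT' => by
      have := hmem a
      rw [mem_sdiff, mem_union, not_or] at this
      exact this.2.1 hT'
    have hmU : ∀ a, h a ∉ U := fun a hT' => by
      have := hmem a
      rw [mem_sdiff, mem_union, not_or] at this
      exact this.2.2 hT'
    have hB : ∀ a a', s(h a, h a') ∉ B := by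
      intro a a' hB'
      apply hmT a
      rw [hT, mem_biUnion]
      exact ⟨_, hB', by simp⟩
    set Ed : Finset (Sym2 (Fin N)) := ((univ : Finset (Fin g × Fin g)).filter
      (fun p => p.1 ≠ p.2)).image (fun p => s(h p.1, h p.2)) with hEd
    have hEdc : Ed.card ≤ g * g := by
      refine card_image_le.trans ((card_filter_le _ _).trans ?_)
      rw [card_univ, Fintype.card_prod, Fintype.card_fin]
    have hsub : Ed \ M ⊆ edges N \ (M ∪ B) := by
      intro e he
      rw [mem_sdiff, hEd, mem_image] at he
      obtain ⟨⟨p, hp, rfl⟩, heM⟩ := he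
      rw [mem_filter] at hp
      rw [mem_sdiff, mem_union, not_or]
      refine ⟨?_, heM, hB _ _⟩
      unfold edges
      rw [mem_filter, Sym2.mk_isDiag_iff]
      exact ⟨mem_univ _, fun h' => hp.2 (h.injective h')⟩
    have hcard : (Ed \ M).card ≤ min m (edges N \ (M ∪ B)).card :=
      le_min ((card_le_card sdiff_subset).trans (hEdc.trans hm)) (card_le_card hsub)
    -- the new groups
    have hnew : ∀ Q R : Finset (Sym2 (Fin N)), Ed \ M ⊆ Q → R.card ≤ b →
        Phase (k + 1) b (Fin.snoc G h) (M ∪ Q) (B ∪ R) := by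
      intro Q R hQ hR
      refine ⟨?_, ?_, ?_⟩
      · intro i a j a' hij
        induction i using Fin.lastCases with
        | last =>
          induction j using Fin.lastCases with
          | last =>
            simp only [Fin.snoc_last] at hij
            exact ⟨rfl, h.injective hij⟩
          | cast j =>
            simp only [Fin.snoc_last, Fin.snoc_castSucc] at hij
            exact absurd (by rw [hU, mem_image]; exact ⟨(j, a'), mem_univ _, hij.symm⟩) (hmU a)
        | cast i =>
          induction j using Fin.lastCases with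
          | last =>
            simp only [Fin.snoc_last, Fin.snoc_castSucc] at hij
            exact absurd (by rw [hU, mem_image]; exact ⟨(i, a), mem_univ _, hij⟩) (hmU a')
          | cast j =>
            simp only [Fin.snoc_castSucc] at hij
            obtain ⟨rfl, rfl⟩ := P.inj _ _ _ _ hij
            exact ⟨rfl, rfl⟩
      · intro i a a' haa
        induction i using Fin.lastCases with
        | last =>
          simp only [Fin.snoc_last]
          rw [mem_union]
          by_cases hM : s(h a, h a') ∈ M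
          · exact Or.inl hM
          · refine Or.inr (hQ (mem_sdiff.mpr ⟨?_, hM⟩))
            rw [hEd, mem_image]
            exact ⟨(a, a'), mem_filter.mpr ⟨mem_univ _, haa⟩, rfl⟩
        | cast i =>
          simp only [Fin.snoc_castSucc]
          exact mem_union_left _ (P.inner i a a' haa)
      · refine (card_union_le _ _).trans ?_
        have := P.cB
        rw [Nat.mul_add, Nat.mul_one]
        omega
    rcases (edges N \ (M ∪ B)).eq_empty_or_nonempty with he | hne
    · have h1 := hnew ∅ ∅ (by rw [he] at hsub; exact hsub) (by simp)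
      rw [union_empty, union_empty] at h1
      exact ih (k + 1) (by omega) _ M B h1
    · obtain ⟨Q, hQ1, hQ2, hQc⟩ := exists_subsuperset_card_eq hsub hcard (min_le_right _ _)
      refine Forces.move hne Q hQ2 hQc ?_
      intro R hR hRc
      exact ih (k + 1) (by omega) _ _ _ (hnew Q R hQ1 (by rw [hRc]; exact min_le_left _ _))

/-- **Block strategy.** -/
theorem block_forces {m q K n : ℕ} (hm : g * g ≤ m) (hm1 : 1 ≤ m) (hn : 2 * (1 + 8 * b) * n ≤ K)
    (hf : Forces 1 b (edges n) (HasClique q) ∅ ∅) (hN : (2 * b + g) * K ≤ N) :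
    Forces m b (edges N) (HasClique (q * g)) ∅ ∅ :=
  phase1 hm hm1 hn hf hN K 0 (by omega) (fun i => i.elim0) ∅ ∅
    ⟨fun i => i.elim0, fun i => i.elim0, by simp⟩

end phase1

end Pool.Agent.H199R2.Blocks
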