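import Mathlib
import Pool.Agent.Helper340.MB.Asym

set_option autoImplicit false
set_option linter.unusedVariables false

/-!
The (2:1) coalition clique game: Maker plays red inside the first half of the vertices only, and
wastes the white edges between the two halves.
-/

namespace Pool.Agent.H199R2.Coalition

open Finset Pool.Agent.Helper340.MB

/-- red edges are oriented pairs -/
abbrev P (n : ℕ) := Fin (n + n) × Fin (n + n)

/-- the embedding of the vertices -/
def io {n : ℕ} (a : Fin n) : Fin (n + n) := Fin.castAdd n a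

/-- the other half -/
def jo {n : ℕ} (a : Fin n) : Fin (n + n) := Fin.natAdd n a

lemma io_lt {n : ℕ} {a b : Fin n} : io a < io b ↔ a < b := by
  unfold io
  rw [Fin.lt_def, Fin.lt_def, Fin.val_castAdd, Fin.val_castAdd]

lemma io_inj {n : ℕ} {a b : Fin n} (h : io a = io b) : a = b := by
  unfold io at h; exact Fin.castAdd_injective _ _ h

lemma io_ne_jo {n : ℕ} (a b : Fin n) : io a ≠ jo b := by
  unfold io jo
  intro h
  have := congrArg Fin.val h
  simp at this
  omega

lemma jo_inj {n : ℕ} {a b : Fin n} (h : jo a = jo b) : a = b := by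
  unfold jo at h; exact Fin.natAdd_injective _ _ h

lemma io_lt_jo {n : ℕ} (a b : Fin n) : io a < jo b := by
  unfold io jo
  rw [Fin.lt_def]
  simp
  omega

/-- the cross edges -/
def cross (n : ℕ) : Finset (P n) := (univ : Finset (Fin n × Fin n)).image (fun p => (io p.1, jo p.2))

lemma card_cross (n : ℕ) : (cross n).card = n * n := by
  unfold cross
  rw [card_image_of_injective, card_univ, Fintype.card_prod, Fintype.card_fin]
  intro p q h
  simp only [Prod.mk.injEq] at h
  exact Prod.ext (io_inj h.1) (jo_inj h.2)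

lemma mem_cross {n : ℕ} {e : P n} : e ∈ cross n ↔ ∃ a b : Fin n, e = (io a, jo b) := by
  unfold cross
  simp only [mem_image, mem_univ, true_and, Prod.exists]
  constructor
  · rintro ⟨a, b, h⟩; exact ⟨a, b, h.symm⟩
  · rintro ⟨a, b, h⟩; exact ⟨a, b, h.symm⟩

/-- the rule of the game (the hypothesis of the frozen statement) -/
def Closed {N : ℕ} (q : ℕ)
    (S : Set (Set (Fin N × Fin N) × Set (Fin N × Fin N) × Set (Fin N × Fin N))) : Prop :=
  (∀ R W B : Set (Fin N × Fin N),
        ((∃ e f : Fin N × Fin N, e.1 < e.2 ∧ f.1 < f.2 ∧ e ≠ f ∧ e ∉ R ∧ e ∉ W ∧ e ∉ B ∧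
            f ∉ R ∧ f ∉ W ∧ f ∉ B ∧
            ((∃ K : Finset (Fin N), K.card = q ∧
                ∀ x ∈ K, ∀ y ∈ K, x < y → (x, y) ∈ insert e R) ∨
             (∃ K : Finset (Fin N), K.card = q ∧
                ∀ x ∈ K, ∀ y ∈ K, x < y → (x, y) ∈ insert f W) ∨
             ((∃ g : Fin N × Fin N, g.1 < g.2 ∧ g ∉ R ∧ g ∉ W ∧ g ∉ B ∧ g ≠ e ∧ g ≠ f) ∧
              ∀ g : Fin N × Fin N, g.1 < g.2 → g ∉ R → g ∉ W → g ∉ B → g ≠ e → g ≠ f →
                (insert e R, insert f W, insert g B) ∈ S))) ∨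
         (∃ e : Fin N × Fin N, e.1 < e.2 ∧ e ∉ R ∧ e ∉ W ∧ e ∉ B ∧
            (∀ f : Fin N × Fin N, f.1 < f.2 → f ∉ R → f ∉ W → f ∉ B → f = e) ∧
            ((∃ K : Finset (Fin N), K.card = q ∧
                ∀ x ∈ K, ∀ y ∈ K, x < y → (x, y) ∈ insert e R) ∨
             (∃ K : Finset (Fin N), K.card = q ∧
                ∀ x ∈ K, ∀ y ∈ K, x < y → (x, y) ∈ insert e W)))) →
        (R, W, B) ∈ S)

/-- the link between the (1:1) game on `n` vertices and the coalition game on `n + n` vertices -/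
structure Link {n : ℕ} (M B' : Finset (Sym2 (Fin n))) (R W B : Set (P n)) : Prop where
  sub : M ⊆ edges n
  red : ∀ a b : Fin n, a < b → s(a, b) ∈ M → (io a, io b) ∈ R
  free : ∀ a b : Fin n, a < b → s(a, b) ∉ M → s(a, b) ∉ B' →
    (io a, io b) ∉ R ∧ (io a, io b) ∉ W ∧ (io a, io b) ∉ B
  inside : ∀ e ∈ R, e ∉ cross n
  wf : ∃ W' : Finset (P n), W ⊆ ↑W' ∧ W'.card ≤ M.card
  bf : ∃ B'' : Finset (P n), B ⊆ ↑B'' ∧ B''.card ≤ M.card

lemma card_edges_le' (n : ℕ) : 2 * (edges n).card ≤ n * n - n := by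
  have h : (edges n).card = n.choose 2 := by
    unfold edges
    have h2 := Sym2.card_subtype_not_diag (α := Fin n)
    rw [Fintype.card_subtype] at h2
    simpa using h2
  rw [h, Nat.choose_two_right]
  have h3 := Nat.mul_div_le (n * (n - 1)) 2
  have h4 : n * (n - 1) = n * n - n := by
    rw [Nat.mul_sub, Nat.mul_one]
  omega

/-- two free cross edges -/
lemma exists_two {n : ℕ} (hn : 2 ≤ n) {M B' : Finset (Sym2 (Fin n))} {R W B : Set (P n)}
    (L : Link M B' R W B) : ∃ f g : P n, f ≠ g ∧ f ∈ cross n ∧ g ∈ cross n ∧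
      (f ∉ R ∧ f ∉ W ∧ f ∉ B) ∧ (g ∉ R ∧ g ∉ W ∧ g ∉ B) := by
  classical
  obtain ⟨W', hW, hWc⟩ := L.wf
  obtain ⟨B'', hB, hBc⟩ := L.bf
  have h1 : M.card ≤ (edges n).card := card_le_card L.sub
  have h2 := card_edges_le' n
  have h3 : 1 < (cross n \ (W' ∪ B'')).card := by
    have h4 := le_card_sdiff (W' ∪ B'') (cross n)
    have h5 := card_union_le W' B''
    rw [card_cross] at h4
    have h6 : n * 2 ≤ n * n := Nat.mul_le_mul_left n hn
    omega
  obtain ⟨f, hf, g, hg, hfg⟩ := Finset.one_lt_card.mp h3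
  simp only [mem_sdiff, mem_union, not_or] at hf hg
  refine ⟨f, g, hfg, hf.1, hg.1, ⟨fun h => L.inside f h hf.1, fun h => hf.2.1 (hW h),
    fun h => hf.2.2 (hB h)⟩, ⟨fun h => L.inside g h hg.1, fun h => hg.2.1 (hW h),
    fun h => hg.2.2 (hB h)⟩⟩

lemma cross_lt {n : ℕ} {f : P n} (hf : f ∈ cross n) : f.1 < f.2 := by
  obtain ⟨a, b, rfl⟩ := mem_cross.mp hf
  exact io_lt_jo a b

lemma inner_notin_cross {n : ℕ} (a b : Fin n) : ((io a, io b) : P n) ∉ cross n := by
  intro h
  obtain ⟨c, d, h⟩ := mem_cross.mp h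
  rw [Prod.mk.injEq] at h
  exact io_ne_jo _ _ h.2

lemma exists_sorted {n : ℕ} {z : Sym2 (Fin n)} (hz : z ∈ edges n) :
    ∃ a b : Fin n, a < b ∧ z = s(a, b) := by
  induction z using Sym2.ind with
  | _ a b =>
    unfold edges at hz
    rw [mem_filter, Sym2.mk_isDiag_iff] at hz
    rcases lt_or_gt_of_ne hz.2 with h | h
    · exact ⟨a, b, h, rfl⟩
    · exact ⟨b, a, h, Sym2.eq_swap⟩

lemma sorted_inj {n : ℕ} {a b c d : Fin n} (h1 : a < b) (h2 : c < d) (h : s(a, b) = s(c, d)) :
    a = c ∧ b = d := by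
  rw [Sym2.eq_iff] at h
  rcases h with h | h
  · exact h
  · obtain ⟨rfl, rfl⟩ := h
    exact absurd (h1.trans h2) (lt_irrefl _)

lemma mem_edges_of_lt {n : ℕ} {a b : Fin n} (h : a < b) : s(a, b) ∈ edges n := by
  unfold edges
  rw [mem_filter, Sym2.mk_isDiag_iff]
  exact ⟨mem_univ _, h.ne⟩

theorem link_forces {n q : ℕ} (hn : 2 ≤ n)
    {S : Set (Set (P n) × Set (P n) × Set (P n))} (hS : Closed q S)
    {M B' : Finset (Sym2 (Fin n))} (hf : Forces 1 1 (edges n) (HasClique q) M B') :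
    ∀ R W B : Set (P n), Link M B' R W B → (R, W, B) ∈ S := by
  classical
  induction hf with
  | @done M B' h0 hg =>
    intro R W B L
    obtain ⟨f, g, hfg, hfc, hgc, ⟨f1, f2, f3⟩, ⟨g1, g2, g3⟩⟩ := exists_two hn L
    refine hS R W B (Or.inl ⟨f, g, cross_lt hfc, cross_lt hgc, hfg, f1, f2, f3, g1, g2, g3,
      Or.inl ?_⟩)
    obtain ⟨K, hK, hKc⟩ := hg
    refine ⟨K.image io, ?_, ?_⟩
    · rw [card_image_of_injective _ (fun a b h => io_inj h), hK]
    · intro x hx y hy hxy
      rw [mem_image] at hx hy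
      obtain ⟨a, ha, rfl⟩ := hx
      obtain ⟨b, hb, rfl⟩ := hy
      have hab : a < b := io_lt.mp hxy
      exact Set.mem_insert_of_mem _ (L.red a b hab (hKc a ha b hb hab.ne))
  | @move M B' hne Q hQ hc hR ih =>
    intro R W B L
    have hc1 : Q.card = 1 := by
      rw [hc]
      have := card_pos.mpr hne
      omega
    obtain ⟨z, rfl⟩ := card_eq_one.mp hc1
    have hz : z ∈ edges n \ (M ∪ B') := hQ (mem_singleton_self z)
    rw [mem_sdiff, mem_union, not_or] at hz
    obtain ⟨a, b, hab, rfl⟩ := exists_sorted hz.1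
    obtain ⟨e1, e2, e3⟩ := L.free a b hab hz.2.1 hz.2.2
    obtain ⟨f, g, hfg, hfc, hgc, ⟨f1, f2, f3⟩, ⟨g1, g2, g3⟩⟩ := exists_two hn L
    have hef : ((io a, io b) : P n) ≠ f := by
      rintro rfl; exact inner_notin_cross a b hfc
    have heg : g ≠ ((io a, io b) : P n) := by
      rintro rfl; exact inner_notin_cross a b hgc
    refine hS R W B (Or.inl ⟨(io a, io b), f, io_lt.mpr hab, cross_lt hfc, hef, e1, e2, e3,
      f1, f2, f3, Or.inr (Or.inr ⟨⟨g, cross_lt hgc, g1, g2, g3, heg, hfg.symm⟩, ?_⟩)⟩)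
    intro g' hg' k1 k2 k3 k4 k5
    -- the virtual reply
    obtain ⟨R', hR'1, hR'2, hR'3⟩ : ∃ R' ⊆ (edges n \ (M ∪ B')) \ {s(a, b)},
        R'.card = min 1 ((edges n \ (M ∪ B')) \ {s(a, b)}).card ∧
        ∀ c d : Fin n, c < d → ((io c, io d) : P n) = g' →
          s(c, d) ∈ (edges n \ (M ∪ B')) \ {s(a, b)} → s(c, d) ∈ R' := by
      by_cases hx : ∃ c d : Fin n, c < d ∧ ((io c, io d) : P n) = g' ∧
          s(c, d) ∈ (edges n \ (M ∪ B')) \ {s(a, b)}
      · obtain ⟨c, d, hcd, hg, hmem⟩ := hx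
        refine ⟨{s(c, d)}, by simpa using hmem, ?_, ?_⟩
        · rw [card_singleton]
          have := card_pos.mpr ⟨_, hmem⟩
          omega
        · intro c' d' hcd' hg'' _
          have h1 : ((io c', io d') : P n) = (io c, io d) := hg''.trans hg.symm
          rw [Prod.mk.injEq] at h1
          rw [io_inj h1.1, io_inj h1.2]
          exact mem_singleton_self _
      · obtain ⟨R', h1, h2⟩ := exists_subset_card_eq
          (s := (edges n \ (M ∪ B')) \ {s(a, b)})
          (n := min 1 ((edges n \ (M ∪ B')) \ {s(a, b)}).card) (min_le_right _ _)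
        exact ⟨R', h1, h2, fun c d hcd hg hmem => absurd ⟨c, d, hcd, hg, hmem⟩ hx⟩
    refine ih R' hR'1 hR'2 _ _ _ ?_
    refine ⟨?_, ?_, ?_, ?_, ?_, ?_⟩
    · intro z hz'
      rw [mem_union, mem_singleton] at hz'
      rcases hz' with h | rfl
      · exact L.sub h
      · exact hz.1
    · intro c d hcd hmem
      rw [mem_union, mem_singleton] at hmem
      rcases hmem with h | h
      · exact Set.mem_insert_of_mem _ (L.red c d hcd h)
      · obtain ⟨rfl, rfl⟩ := sorted_inj hcd hab h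
        exact Set.mem_insert _ _
    · intro c d hcd hM hB
      rw [mem_union, mem_singleton, not_or] at hM
      rw [mem_union, not_or] at hB
      obtain ⟨t1, t2, t3⟩ := L.free c d hcd hM.1 hB.1
      refine ⟨?_, ?_, ?_⟩
      · rintro (h | h)
        · rw [Prod.mk.injEq] at h
          exact hM.2 (by rw [io_inj h.1, io_inj h.2])
        · exact t1 h
      · rintro (h | h)
        · exact inner_notin_cross c d (h ▸ hfc)
        · exact t2 h
      · rintro (h | h)
        · refine hB.2 (hR'3 c d hcd h ?_)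
          rw [mem_sdiff, mem_sdiff, mem_union, not_or, mem_singleton]
          exact ⟨⟨mem_edges_of_lt hcd, hM.1, hB.1⟩, hM.2⟩
        · exact t3 h
    · rintro e (rfl | h)
      · exact inner_notin_cross a b
      · exact L.inside e h
    · obtain ⟨W', h1, h2⟩ := L.wf
      refine ⟨insert f W', ?_, ?_⟩
      · rw [coe_insert]; exact Set.insert_subset_insert h1
      · rw [card_union_of_disjoint (by rw [disjoint_singleton_right]; exact hz.2.1),
          card_singleton]
        exact (card_insert_le _ _).trans (by omega)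
    · obtain ⟨W', h1, h2⟩ := L.bf
      refine ⟨insert g' W', ?_, ?_⟩
      · rw [coe_insert]; exact Set.insert_subset_insert h1
      · rw [card_union_of_disjoint (by rw [disjoint_singleton_right]; exact hz.2.1),
          card_singleton]
        exact (card_insert_le _ _).trans (by omega)

theorem wins {n q : ℕ} (hn : 2 ≤ n) (hf : Forces 1 1 (edges n) (HasClique q) ∅ ∅)
    (S : Set (Set (P n) × Set (P n) × Set (P n))) (hS : Closed q S) :
    ((∅ : Set (P n)), (∅ : Set (P n)), (∅ : Set (P n))) ∈ S := by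
  refine link_forces hn hS hf ∅ ∅ ∅ ⟨by simp, by simp, by simp, by simp, ⟨∅, by simp⟩,
    ⟨∅, by simp⟩⟩

lemma asym (C C₁ : ℝ) : ∀ᶠ n : ℕ in Filter.atTop,
    2 * Real.logb 3 ((n + n : ℕ) : ℝ) - 2 * Real.logb 3 (Real.logb 3 ((n + n : ℕ) : ℝ)) + C <
    2 * Real.logb 2 n - 2 * Real.logb 2 (Real.logb 2 n) - C₁ - 1 := by
  have hlog : Filter.Tendsto (fun N : ℕ => Real.log (N : ℝ)) Filter.atTop Filter.atTop :=
    Real.tendsto_log_atTop.comp tendsto_natCast_atTop_atTop
  have hl2 : 0 < Real.log 2 := Real.log_pos (by norm_num)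
  have hl3 : 0 < Real.log 3 := Real.log_pos (by norm_num)
  have hl23 : Real.log 2 < Real.log 3 := Real.log_lt_log (by norm_num) (by norm_num)
  set κ := 2 / Real.log 2 - 2 / Real.log 3 with hκ
  have hκ0 : 0 < κ := by
    rw [hκ, sub_pos]
    exact div_lt_div_of_pos_left (by norm_num) hl2 hl23
  have hlittle := Real.isLittleO_log_id_atTop.def (show 0 < κ * Real.log 2 / 4 by positivity)
  have h1 := hlog.eventually hlittle
  have h2 := hlog.eventually_ge_atTop (max (max 1 (Real.log 3))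
    ((C + C₁ + 2 + 2 * Real.logb 3 2 - 2 / Real.log 2 * Real.log (Real.log 2)) / (κ / 4)))
  filter_upwards [h1, h2, Filter.eventually_ge_atTop 2] with n hn1 hn2 hn3
  set L := Real.log (n : ℝ) with hL
  have hnR : (2 : ℝ) ≤ n := by exact_mod_cast hn3
  have hL1 : 1 ≤ L := (le_max_left _ _).trans ((le_max_left _ _).trans hn2)
  have hL3 : Real.log 3 ≤ L := (le_max_right _ _).trans ((le_max_left _ _).trans hn2)
  have hL4 : (C + C₁ + 2 + 2 * Real.logb 3 2 - 2 / Real.log 2 * Real.log (Real.log 2)) / (κ / 4) ≤ L :=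
    (le_max_right _ _).trans hn2
  rw [div_le_iff₀ (by positivity)] at hL4
  simp only [id, Real.norm_eq_abs] at hn1
  have hlogL : 0 ≤ Real.log L := Real.log_nonneg hL1
  rw [abs_of_nonneg hlogL, abs_of_nonneg (by linarith)] at hn1
  have e1 : Real.logb 3 ((n + n : ℕ) : ℝ) = Real.logb 3 2 + Real.logb 3 n := by
    rw [← Real.logb_mul (by norm_num) (by positivity)]
    congr 1
    push_cast; ring
  have e2 : 0 ≤ Real.logb 3 (Real.logb 3 ((n + n : ℕ) : ℝ)) := by
    apply Real.logb_nonneg (by norm_num)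
    rw [Real.logb, le_div_iff₀ hl3, one_mul]
    refine hL3.trans (Real.log_le_log (by positivity) ?_)
    push_cast; linarith
  have e3 : Real.logb 2 (Real.logb 2 n) = (Real.log L - Real.log (Real.log 2)) / Real.log 2 := by
    rw [Real.logb, Real.logb, ← hL, Real.log_div (by positivity) hl2.ne']
  rw [e1] at e2
  rw [e1, e3]
  have e4 : Real.logb 3 n = L / Real.log 3 := by rw [Real.logb]
  have e5 : Real.logb 2 n = L / Real.log 2 := by rw [Real.logb]
  rw [e4] at e2
  rw [e4, e5]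
  have h5 : 2 * (Real.log L - Real.log (Real.log 2)) / Real.log 2 ≤
      κ / 2 * L - 2 / Real.log 2 * Real.log (Real.log 2) := by
    have : 2 * (Real.log L - Real.log (Real.log 2)) / Real.log 2 =
        2 / Real.log 2 * Real.log L - 2 / Real.log 2 * Real.log (Real.log 2) := by ring
    rw [this]
    have h6 : 2 / Real.log 2 * Real.log L ≤ 2 / Real.log 2 * (κ * Real.log 2 / 4 * L) :=
      mul_le_mul_of_nonneg_left hn1 (by positivity)
    have h7 : 2 / Real.log 2 * (κ * Real.log 2 / 4 * L) = κ / 2 * L := by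
      field_simp
      ring
    linarith
  have h8 : κ * L = 2 * (L / Real.log 2) - 2 * (L / Real.log 3) := by rw [hκ]; ring
  have h9 : 2 * ((Real.log L - Real.log (Real.log 2)) / Real.log 2) =
      2 * (Real.log L - Real.log (Real.log 2)) / Real.log 2 := by ring
  rw [h9]
  have h10 : 0 < κ * L := by positivity
  nlinarith

theorem main (C : ℝ) (N₀ : ℕ) : ∃ n q : ℕ, N₀ ≤ n + n ∧
    2 * Real.logb 3 ((n + n : ℕ) : ℝ) - 2 * Real.logb 3 (Real.logb 3 ((n + n : ℕ) : ℝ)) + C < q ∧
    ∀ S : Set (Set (P n) × Set (P n) × Set (P n)), Closed q S →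
      ((∅ : Set (P n)), (∅ : Set (P n)), (∅ : Set (P n))) ∈ S := by
  obtain ⟨C₁, N₁, h⟩ := clique_forces 1 1 le_rfl le_rfl
  have hcc : cc 1 1 = 2 := by unfold cc; norm_num
  rw [hcc] at h
  obtain ⟨n, hn⟩ := ((asym C C₁).and (Filter.eventually_ge_atTop (max (max N₀ N₁) 2))).exists
  obtain ⟨h1, h2⟩ := hn
  have hN0 : N₀ ≤ n := (le_max_left _ _).trans ((le_max_left _ _).trans h2)
  have hN1 : N₁ ≤ n := (le_max_right _ _).trans ((le_max_left _ _).trans h2)
  have hn2 : 2 ≤ n := (le_max_right _ _).trans h2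
  obtain ⟨h7, hf⟩ := h n hN1
  refine ⟨n, _, by omega, ?_, fun S hS => wins hn2 hf S hS⟩
  refine h1.trans ?_
  have := Nat.lt_floor_add_one (2 * Real.logb 2 (n : ℝ) - 2 * Real.logb 2 (Real.logb 2 n) - C₁)
  linarith

end Pool.Agent.H199R2.Coalition
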